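import Pool.Agent.H717.NL.Stmts2

set_option autoImplicit false

/-!
# MP_26b317_lc: Newton inversion of power series in the tree model
-/

open Polynomial

namespace Pool.Agent.H94.NL

open Pool.Agent.H717.NL

theorem coeff_toPoly {m : ℕ} (v : Fin m → ℝ) (j : ℕ) :
    (toPoly v).coeff j = if h : j < m then v ⟨j, h⟩ else 0 := by
  unfold toPoly
  rw [finsetSum_coeff]
  simp only [coeff_C_mul, coeff_X_pow]
  split_ifs with h
  · rw [Finset.sum_eq_single ⟨j, h⟩]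
    · simp
    · intro b _ hb
      have : j ≠ (b : ℕ) := by
        intro h1
        apply hb
        exact Fin.ext h1.symm
      rw [if_neg this, mul_zero]
    · intro h1
      exact absurd (Finset.mem_univ _) h1
  · apply Finset.sum_eq_zero
    intro b _
    have : j ≠ (b : ℕ) := by
      have := b.2
      omega
    rw [if_neg this, mul_zero]

/-- one step of the Newton iteration, with truncated products -/
theorem newton {N n : ℕ} (hN : N ≤ 2 * n) {h J g H E : PowerSeries ℝ} (hJ : h * J = 1)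
    (hg : PowerSeries.X ^ n ∣ J - g) (hH : PowerSeries.X ^ N ∣ h - H)
    (hE : PowerSeries.X ^ N ∣ H * g - E) : PowerSeries.X ^ N ∣ J - g * (2 - E) := by
  have h1 : J - g * (2 - E) = h * (J - g) ^ 2 - g ^ 2 * (h - H) - g * (H * g - E) := by
    linear_combination (-J + 2 * g) * hJ
  have h2 : (PowerSeries.X : PowerSeries ℝ) ^ N ∣ (J - g) ^ 2 := by
    refine (pow_dvd_pow _ hN).trans ?_
    rw [mul_comm, pow_mul]
    exact pow_dvd_pow_of_dvd hg 2
  rw [h1]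
  exact dvd_sub (dvd_sub (h2.mul_left _) (hH.mul_left _)) (hE.mul_left _)

/-- the series which is inverted -/
noncomputable def ser {m : ℕ} (v : Fin m → ℝ) : PowerSeries ℝ :=
  1 + PowerSeries.X * ((toPoly v : ℝ[X]) : PowerSeries ℝ)

/-- the inverse -/
noncomputable def inv {m : ℕ} (v : Fin m → ℝ) : PowerSeries ℝ := (ser v)⁻¹

theorem ser_mul_inv {m : ℕ} (v : Fin m → ℝ) : ser v * inv v = 1 := by
  apply PowerSeries.mul_inv_cancel
  simp [ser]

/-- the coefficients of the inverse -/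
noncomputable def gg {m : ℕ} (k : ℕ) (v : Fin m → ℝ) : Fin (2 ^ k) → ℝ :=
  fun i => PowerSeries.coeff (R := ℝ) (i : ℕ) (inv v)

/-- the truncated series -/
noncomputable def hh {m : ℕ} (N : ℕ) (v : Fin m → ℝ) : Fin N → ℝ :=
  fun i => if (i : ℕ) = 0 then 1 else if h : (i : ℕ) - 1 < m then v ⟨(i : ℕ) - 1, h⟩ else 0

/-- `2 - e` -/
noncomputable def tm {N : ℕ} (e : Fin N → ℝ) : Fin N → ℝ := fun i => (if (i : ℕ) = 0 then 2 else 0) - e i

theorem cmp_hh {m : ℕ} (N : ℕ) : Cmp (hh (m := m) N) (N * 3) := by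
  refine Cmp.pi (fun i => ?_)
  unfold hh
  by_cases h0 : (i : ℕ) = 0
  · simp only [h0, if_true]
    exact Cmp.one.mono (by omega)
  · by_cases h1 : (i : ℕ) - 1 < m
    · simp only [h0, h1, if_false, dif_pos]
      exact (Cmp.proj (⟨(i : ℕ) - 1, h1⟩ : Fin m)).mono (by omega)
    · simp only [h0, h1, if_false, dif_neg, not_false_eq_true]
      exact Cmp.zero

theorem cmp_tm (N : ℕ) : Cmp (tm (N := N)) (N * 4) := by
  refine Cmp.pi (fun i => ?_)
  unfold tm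
  by_cases h0 : (i : ℕ) = 0
  · simp only [h0, if_true]
    have h1 : Cmp (fun _ : Fin N → ℝ => (2 : ℝ)) 3 :=
      (Cmp.one.add' Cmp.one).congr (fun _ => by norm_num)
    exact (h1.sub' (Cmp.proj i)).mono (by omega)
  · simp only [h0, if_false]
    exact (Cmp.zero.sub' (Cmp.proj i)).mono (by omega)

theorem coeff_toPoly_ps {m : ℕ} (v : Fin m → ℝ) (j : ℕ) :
    PowerSeries.coeff (R := ℝ) j ((toPoly v : ℝ[X]) : PowerSeries ℝ) =
      if h : j < m then v ⟨j, h⟩ else 0 := by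
  rw [Polynomial.coeff_coe, coeff_toPoly]

theorem hh_dvd {m : ℕ} (N : ℕ) (v : Fin m → ℝ) :
    PowerSeries.X ^ N ∣ ser v - ((toPoly (hh N v) : ℝ[X]) : PowerSeries ℝ) := by
  rw [PowerSeries.X_pow_dvd_iff]
  intro j hj
  rw [map_sub, coeff_toPoly_ps, dif_pos hj]
  unfold ser hh
  rw [map_add, PowerSeries.coeff_one]
  cases j with
  | zero => simp
  | succ j =>
    rw [PowerSeries.coeff_succ_X_mul, coeff_toPoly_ps]
    simp

theorem gg_dvd {m : ℕ} (k : ℕ) (v : Fin m → ℝ) :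
    PowerSeries.X ^ (2 ^ k) ∣ inv v - ((toPoly (gg k v) : ℝ[X]) : PowerSeries ℝ) := by
  rw [PowerSeries.X_pow_dvd_iff]
  intro j hj
  rw [map_sub, coeff_toPoly_ps, dif_pos hj]
  unfold gg
  simp

theorem mul_dvd {a b N : ℕ} (u : Fin a → ℝ) (v : Fin b → ℝ) :
    PowerSeries.X ^ N ∣ ((toPoly u : ℝ[X]) : PowerSeries ℝ) * ((toPoly v : ℝ[X]) : PowerSeries ℝ) -
      ((toPoly (fun i : Fin N => (toPoly u * toPoly v).coeff i) : ℝ[X]) : PowerSeries ℝ) := by
  rw [PowerSeries.X_pow_dvd_iff]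
  intro j hj
  rw [map_sub, coeff_toPoly_ps, dif_pos hj, ← Polynomial.coe_mul, Polynomial.coeff_coe]
  simp

theorem tm_eq {N : ℕ} (hN : 0 < N) (e : Fin N → ℝ) :
    ((toPoly (tm e) : ℝ[X]) : PowerSeries ℝ) = 2 - ((toPoly e : ℝ[X]) : PowerSeries ℝ) := by
  ext j
  rw [map_sub, coeff_toPoly_ps, coeff_toPoly_ps]
  have h2 : PowerSeries.coeff (R := ℝ) j (2 : PowerSeries ℝ) = if j = 0 then 2 else 0 := by
    have : (2 : PowerSeries ℝ) = PowerSeries.C 2 := (map_ofNat PowerSeries.C 2).symm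
    rw [this, PowerSeries.coeff_C]
  rw [h2]
  unfold tm
  by_cases hj : j < N
  · simp only [dif_pos hj]
  · simp only [dif_neg hj]
    have : j ≠ 0 := by omega
    simp [this]

/-- correctness of the step -/
theorem step_eq {m : ℕ} (k : ℕ) (v : Fin m → ℝ) (i : Fin (2 ^ (k + 1))) :
    (toPoly (gg k v) * toPoly (tm (fun i : Fin (2 ^ (k + 1)) =>
      (toPoly (hh (2 ^ (k + 1)) v) * toPoly (gg k v)).coeff i))).coeff i = gg (k + 1) v i := by
  have h1 := newton (N := 2 ^ (k + 1)) (n := 2 ^ k) (by rw [pow_succ]; omega) (ser_mul_inv v) (gg_dvd k v)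
    (hh_dvd (2 ^ (k + 1)) v) (mul_dvd (N := 2 ^ (k + 1)) (hh (2 ^ (k + 1)) v) (gg k v))
  rw [← tm_eq (by positivity), ← Polynomial.coe_mul, PowerSeries.X_pow_dvd_iff] at h1
  have h2 := h1 i i.2
  rw [map_sub, Polynomial.coeff_coe] at h2
  unfold gg at h2 ⊢
  linarith

theorem cmp_gg {K : ℕ} (hmul : ∀ k m l q : ℕ, m ≤ 2 ^ k → l ≤ 2 ^ k → q ≤ 2 ^ (k + 1) →
    Cmp (fun p : (Fin m → ℝ) × (Fin l → ℝ) => fun i : Fin q => (toPoly p.1 * toPoly p.2).coeff i)
      (K * 2 ^ k * (k + 1) ^ 2)) (m : ℕ) : ∀ k : ℕ,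
    Cmp (gg (m := m) k) ((4 * K + 14) * 2 ^ k * (k + 1) ^ 2) := by
  intro k
  induction k with
  | zero =>
    have h1 : Cmp (fun _ : Fin m → ℝ => fun _ : Fin (2 ^ 0) => (1 : ℝ)) (2 ^ 0 * 1) :=
      Cmp.pi (fun _ => Cmp.one)
    refine (h1.mono (by norm_num)).congr (fun v => ?_)
    funext i
    have hi : (i : ℕ) = 0 := by
      have := i.2
      omega
    unfold gg
    rw [hi]
    have h2 := congrArg (PowerSeries.coeff (R := ℝ) 0) (ser_mul_inv v)
    simp only [PowerSeries.coeff_zero_eq_constantCoeff, map_mul, map_one] at h2 ⊢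
    have h3 : PowerSeries.constantCoeff (R := ℝ) (ser v) = 1 := by simp [ser]
    rw [h3, one_mul] at h2
    exact h2.symm
  | succ k ih =>
    have hM1 := hmul (k + 1) (2 ^ (k + 1)) (2 ^ k) (2 ^ (k + 1)) le_rfl
      (Nat.pow_le_pow_right (by norm_num) (Nat.le_succ k)) (Nat.pow_le_pow_right (by norm_num) (Nat.le_succ _))
    have hM2 := hmul (k + 1) (2 ^ k) (2 ^ (k + 1)) (2 ^ (k + 1))
      (Nat.pow_le_pow_right (by norm_num) (Nat.le_succ k)) le_rfl
      (Nat.pow_le_pow_right (by norm_num) (Nat.le_succ _))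
    have e1 := (cmp_hh (m := m) (2 ^ (k + 1))).pair ih
    have e2 : Cmp (fun q : ((Fin (2 ^ (k + 1)) → ℝ) × (Fin (2 ^ k) → ℝ)) × (Fin (2 ^ (k + 1)) → ℝ) =>
        (q.1.2, tm q.2)) (0 + 2 ^ (k + 1) * 4) :=
      ((Cmp.fst.on Cmp.snd).pair (Cmp.snd.on (cmp_tm (2 ^ (k + 1)))))
    have e3 := e2.comp hM2
    have e4 := hM1.bind e3
    have e5 := e1.comp e4
    refine (e5.mono ?_).congr (fun v => ?_)
    · have h1 : (2 : ℕ) ^ (k + 1) = 2 * 2 ^ k := by rw [pow_succ]; ring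
      have h2 : 1 ≤ (k + 1 + 1) ^ 2 := Nat.one_le_pow _ _ (by omega)
      have h3 : (k + 1) ^ 2 ≤ (k + 1 + 1) ^ 2 := Nat.pow_le_pow_left (by omega) 2
      have h4 : 2 ^ (k + 1) * 3 + 2 ^ (k + 1) * 4 ≤ 14 * 2 ^ k * (k + 1 + 1) ^ 2 := by
        rw [h1]
        calc 2 * 2 ^ k * 3 + 2 * 2 ^ k * 4 = 14 * 2 ^ k * 1 := by ring
          _ ≤ 14 * 2 ^ k * (k + 1 + 1) ^ 2 := Nat.mul_le_mul_left _ h2
      have h5 : (4 * K + 14) * 2 ^ k * (k + 1) ^ 2 ≤ (4 * K + 14) * 2 ^ k * (k + 1 + 1) ^ 2 :=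
        Nat.mul_le_mul_left _ h3
      have h6 : (4 * K + 14) * 2 ^ (k + 1) * (k + 1 + 1) ^ 2 =
          (4 * K + 14) * 2 ^ k * (k + 1 + 1) ^ 2 + 14 * 2 ^ k * (k + 1 + 1) ^ 2 +
            2 * (K * 2 ^ (k + 1) * (k + 1 + 1) ^ 2) := by
        rw [h1]
        ring
      rw [h6]
      omega
    · funext i
      exact step_eq k v i

/-- Newton inversion of power series -/
theorem t_inv (h : S_mul) : S_inv := by
  obtain ⟨K, hK⟩ := h
  exact ⟨4 * K + 14, fun k m _ => cmp_gg hK m k⟩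

end Pool.Agent.H94.NL
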